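import Mathlib

open MvPolynomial

namespace Pool.Agent.H445

noncomputable section

abbrev S := MvPolynomial (Fin 3) ℂ

/-- substitution of `r` for the `k`-th variable -/
def sub (k : Fin 3) (r : S) : S →ₐ[ℂ] S := aeval (Function.update X k r)

lemma sub_X_self (k : Fin 3) (r : S) : sub k r (X k) = r := by
  simp [sub]

lemma sub_X_ne {k j : Fin 3} (r : S) (h : j ≠ k) : sub k r (X j) = X j := by
  simp [sub, Function.update_of_ne h]

lemma sub_C (k : Fin 3) (r : S) (a : ℂ) : sub k r (C a) = C a := by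
  simp [sub, ← algebraMap_eq]

lemma sub_dvd (k : Fin 3) (r w : S) : (X k - r) ∣ w - sub k r w := by
  induction w using MvPolynomial.induction_on with
  | C a => rw [sub_C]; simp
  | add p q hp hq =>
    have : p + q - sub k r (p + q) = (p - sub k r p) + (q - sub k r q) := by
      rw [map_add]; ring
    rw [this]; exact dvd_add hp hq
  | mul_X p j hp =>
    have e : p * X j - sub k r (p * X j)
        = (p - sub k r p) * X j + sub k r p * (X j - sub k r (X j)) := by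
      rw [map_mul]; ring
    rw [e]
    refine dvd_add (hp.mul_right _) (Dvd.dvd.mul_left ?_ _)
    by_cases h : j = k
    · subst h; rw [sub_X_self]
    · rw [sub_X_ne _ h]; simp

/-- the points and the linear forms -/
def zt (n i : ℕ) : ℂ := (Complex.exp (2 * Real.pi * Complex.I / n)) ^ i

lemma zt_pow {n : ℕ} (hn : n ≠ 0) (i : ℕ) : zt n i ^ n = 1 := by
  have h := (Complex.isPrimitiveRoot_exp n hn).pow_eq_one
  rw [zt, ← pow_mul, mul_comm i n, pow_mul, h, one_pow]

lemma zt_inj {n : ℕ} (hn : n ≠ 0) {i j : ℕ} (hi : i < n) (hj : j < n) (h : zt n i = zt n j) :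
    i = j :=
  (Complex.isPrimitiveRoot_exp n hn).pow_inj hi hj h

def lx (n i : ℕ) : S := X 0 - C (zt n i) * X 2
def ly (n j : ℕ) : S := X 1 - C (zt n j) * X 2

def sx (n i : ℕ) : S →ₐ[ℂ] S := sub 0 (C (zt n i) * X 2)
def sy (n j : ℕ) : S →ₐ[ℂ] S := sub 1 (C (zt n j) * X 2)

lemma sx_X0 (n i : ℕ) : sx n i (X 0) = C (zt n i) * X 2 := sub_X_self _ _
lemma sx_X1 (n i : ℕ) : sx n i (X 1) = X 1 := sub_X_ne _ (by decide)
lemma sx_X2 (n i : ℕ) : sx n i (X 2) = X 2 := sub_X_ne _ (by decide)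
lemma sy_X0 (n i : ℕ) : sy n i (X 0) = X 0 := sub_X_ne _ (by decide)
lemma sy_X1 (n i : ℕ) : sy n i (X 1) = C (zt n i) * X 2 := sub_X_self _ _
lemma sy_X2 (n i : ℕ) : sy n i (X 2) = X 2 := sub_X_ne _ (by decide)
lemma sx_C (n i : ℕ) (a : ℂ) : sx n i (C a) = C a := sub_C _ _ _
lemma sy_C (n i : ℕ) (a : ℂ) : sy n i (C a) = C a := sub_C _ _ _

lemma sx_lx (n i i' : ℕ) : sx n i (lx n i') = C (zt n i - zt n i') * X 2 := by
  simp [lx, sx_X0, sx_X2, sx_C]; ring
lemma sy_ly (n i i' : ℕ) : sy n i (ly n i') = C (zt n i - zt n i') * X 2 := by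
  simp [ly, sy_X1, sy_X2, sy_C]; ring
lemma sx_ly (n i i' : ℕ) : sx n i (ly n i') = ly n i' := by
  simp [ly, sx_X1, sx_X2, sx_C]
lemma sy_lx (n i i' : ℕ) : sy n i (lx n i') = lx n i' := by
  simp [lx, sy_X0, sy_X2, sy_C]

lemma lx_dvd_iff (n i : ℕ) (w : S) : lx n i ∣ w ↔ sx n i w = 0 := by
  constructor
  · rintro ⟨q, rfl⟩
    rw [map_mul, sx_lx]; simp
  · intro h
    have := sub_dvd 0 (C (zt n i) * X 2) w
    change _ ∣ w - sx n i w at this
    rw [h, sub_zero] at this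
    exact this

lemma ly_dvd_iff (n i : ℕ) (w : S) : ly n i ∣ w ↔ sy n i w = 0 := by
  constructor
  · rintro ⟨q, rfl⟩
    rw [map_mul, sy_ly]; simp
  · intro h
    have := sub_dvd 1 (C (zt n i) * X 2) w
    change _ ∣ w - sy n i w at this
    rw [h, sub_zero] at this
    exact this

lemma lx_ne (n i : ℕ) : lx n i ≠ 0 := by
  intro h
  have := congrArg (eval ![1, 0, 0]) h
  simp [lx] at this

lemma ly_ne (n i : ℕ) : ly n i ≠ 0 := by
  intro h
  have := congrArg (eval ![0, 1, 0]) h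
  simp [ly] at this

lemma lx_prime (n i : ℕ) : Prime (lx n i) := by
  refine ⟨lx_ne n i, ?_, ?_⟩
  · intro h
    have := h.map (eval ![zt n i, 0, 1])
    simp [lx] at this
  · intro a b h
    rw [lx_dvd_iff, map_mul, mul_eq_zero] at h
    rwa [lx_dvd_iff, lx_dvd_iff]

lemma ly_prime (n i : ℕ) : Prime (ly n i) := by
  refine ⟨ly_ne n i, ?_, ?_⟩
  · intro h
    have := h.map (eval ![0, zt n i, 1])
    simp [ly] at this
  · intro a b h
    rw [ly_dvd_iff, map_mul, mul_eq_zero] at h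
    rwa [ly_dvd_iff, ly_dvd_iff]

lemma X2_ne : (X 2 : S) ≠ 0 := X_ne_zero _

lemma diff_ne {n : ℕ} (hn : n ≠ 0) {i j : ℕ} (hi : i < n) (hj : j < n) (h : i ≠ j) :
    (C (zt n i - zt n j) * X 2 : S) ≠ 0 := by
  refine mul_ne_zero ?_ X2_ne
  rw [Ne, C_eq_zero, sub_eq_zero]
  exact fun e => h (zt_inj hn hi hj e)

def PX (n : ℕ) (I : Finset ℕ) : S := ∏ i ∈ I, lx n i
def PY (n : ℕ) (I : Finset ℕ) : S := ∏ i ∈ I, ly n i

lemma sx_PX {n : ℕ} {I : Finset ℕ} {i : ℕ} (hi : i ∈ I) : sx n i (PX n I) = 0 := by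
  rw [PX, map_prod]
  refine Finset.prod_eq_zero hi ?_
  rw [sx_lx]; simp
lemma sy_PY {n : ℕ} {I : Finset ℕ} {i : ℕ} (hi : i ∈ I) : sy n i (PY n I) = 0 := by
  rw [PY, map_prod]
  refine Finset.prod_eq_zero hi ?_
  rw [sy_ly]; simp
lemma sx_PY (n : ℕ) (I : Finset ℕ) (i : ℕ) : sx n i (PY n I) = PY n I := by
  rw [PY, map_prod]
  exact Finset.prod_congr rfl fun _ _ => sx_ly _ _ _
lemma sy_PX (n : ℕ) (I : Finset ℕ) (i : ℕ) : sy n i (PX n I) = PX n I := by
  rw [PX, map_prod]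
  exact Finset.prod_congr rfl fun _ _ => sy_lx _ _ _
lemma sx_PX_ne {n : ℕ} (hn : n ≠ 0) {I : Finset ℕ} {i : ℕ} (hI : ∀ j ∈ I, j < n) (hi : i < n)
    (h : i ∉ I) : sx n i (PX n I) ≠ 0 := by
  rw [PX, map_prod, Finset.prod_ne_zero_iff]
  intro j hj
  rw [sx_lx]
  exact diff_ne hn hi (hI j hj) (fun e => h (e ▸ hj))
lemma sy_PY_ne {n : ℕ} (hn : n ≠ 0) {I : Finset ℕ} {i : ℕ} (hI : ∀ j ∈ I, j < n) (hi : i < n)
    (h : i ∉ I) : sy n i (PY n I) ≠ 0 := by
  rw [PY, map_prod, Finset.prod_ne_zero_iff]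
  intro j hj
  rw [sy_ly]
  exact diff_ne hn hi (hI j hj) (fun e => h (e ▸ hj))

lemma PX_ne (n : ℕ) (I : Finset ℕ) : PX n I ≠ 0 := by
  rw [PX, Finset.prod_ne_zero_iff]; exact fun _ _ => lx_ne _ _
lemma PY_ne (n : ℕ) (I : Finset ℕ) : PY n I ≠ 0 := by
  rw [PY, Finset.prod_ne_zero_iff]; exact fun _ _ => ly_ne _ _

lemma PX_dvd {n : ℕ} (hn : n ≠ 0) (I : Finset ℕ) (hI : ∀ j ∈ I, j < n) (w : S)
    (h : ∀ i ∈ I, sx n i w = 0) : PX n I ∣ w := by
  induction I using Finset.induction_on generalizing w with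
  | empty => simp [PX]
  | insert a J ha ih =>
    obtain ⟨q, hq⟩ := (lx_dvd_iff n a w).2 (h a (Finset.mem_insert_self _ _))
    have hq2 : PX n J ∣ q := by
      refine ih (fun j hj => hI j (Finset.mem_insert_of_mem hj)) q ?_
      intro i hi
      have h1 := h i (Finset.mem_insert_of_mem hi)
      rw [hq, map_mul, sx_lx, mul_eq_zero] at h1
      refine h1.resolve_left (diff_ne hn (hI i (Finset.mem_insert_of_mem hi))
        (hI a (Finset.mem_insert_self _ _)) ?_)
      rintro rfl; exact ha hi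
    rw [hq, PX, Finset.prod_insert ha]
    exact mul_dvd_mul_left _ hq2

lemma PY_dvd {n : ℕ} (hn : n ≠ 0) (I : Finset ℕ) (hI : ∀ j ∈ I, j < n) (w : S)
    (h : ∀ i ∈ I, sy n i w = 0) : PY n I ∣ w := by
  induction I using Finset.induction_on generalizing w with
  | empty => simp [PY]
  | insert a J ha ih =>
    obtain ⟨q, hq⟩ := (ly_dvd_iff n a w).2 (h a (Finset.mem_insert_self _ _))
    have hq2 : PY n J ∣ q := by
      refine ih (fun j hj => hI j (Finset.mem_insert_of_mem hj)) q ?_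
      intro i hi
      have h1 := h i (Finset.mem_insert_of_mem hi)
      rw [hq, map_mul, sy_ly, mul_eq_zero] at h1
      refine h1.resolve_left (diff_ne hn (hI i (Finset.mem_insert_of_mem hi))
        (hI a (Finset.mem_insert_self _ _)) ?_)
      rintro rfl; exact ha hi
    rw [hq, PY, Finset.prod_insert ha]
    exact mul_dvd_mul_left _ hq2

/-- one row -/
lemma row {n : ℕ} (hn : n ≠ 0) (I : Finset ℕ) (hI : ∀ j ∈ I, j < n) (j : ℕ) (w : S)
    (h : ∀ i ∈ I, sx n i (sy n j w) = 0) : ∃ m r, w = PX n I * m + ly n j * r := by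
  obtain ⟨m, hm⟩ := PX_dvd hn I hI (sy n j w) h
  obtain ⟨r, hr⟩ := (ly_dvd_iff n j (w - PX n I * m)).2 (by
    rw [map_sub, map_mul, sy_PX]
    have e : sy n j (sy n j w) = sy n j w := by
      have : (sy n j).comp (sy n j) = sy n j := by
        apply MvPolynomial.algHom_ext
        intro k
        fin_cases k
        · simp [sy_X0]
        · simp [sy_X1, sy_X2, sy_C]
        · simp [sy_X2]
      exact congrArg (fun φ => φ w) this
    have e2 : sy n j (sy n j w) = PX n I * sy n j m := by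
      rw [hm, map_mul, sy_PX]
    rw [← e2, e, sub_self])
  exact ⟨m, r, by rw [← hr]; ring⟩

/-- grid -/
lemma grid {n : ℕ} (hn : n ≠ 0) (I J : Finset ℕ) (hI : ∀ j ∈ I, j < n) (hJ : ∀ j ∈ J, j < n)
    (w : S) (h : ∀ i ∈ I, ∀ j ∈ J, sx n i (sy n j w) = 0) :
    ∃ m r, w = PX n I * m + PY n J * r := by
  induction J using Finset.induction_on with
  | empty => exact ⟨0, w, by simp [PY]⟩
  | insert a J ha ih =>
    obtain ⟨m, r, e⟩ := ih (fun j hj => hJ j (Finset.mem_insert_of_mem hj))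
      (fun i hi j hj => h i hi j (Finset.mem_insert_of_mem hj))
    obtain ⟨m', r', e'⟩ := row hn I hI a r (by
      intro i hi
      have h1 := h i hi a (Finset.mem_insert_self _ _)
      rw [e, map_add, map_mul, map_mul, sy_PX, map_add, map_mul, map_mul, sx_PX hi, zero_mul,
        zero_add, mul_eq_zero] at h1
      refine h1.resolve_left ?_
      have h2 : sy n a (PY n J) ≠ 0 :=
        sy_PY_ne hn (fun j hj => hJ j (Finset.mem_insert_of_mem hj))
          (hJ a (Finset.mem_insert_self _ _)) ha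
      rw [PY, map_prod, map_prod]
      refine Finset.prod_ne_zero_iff.2 ?_
      intro j hj
      rw [sy_ly, map_mul, sx_C, sx_X2]
      refine diff_ne hn (hJ a (Finset.mem_insert_self _ _)) (hJ j (Finset.mem_insert_of_mem hj)) ?_
      rintro rfl; exact ha hj)
    refine ⟨m + PY n J * m', r', ?_⟩
    rw [e, e', PY, PY, Finset.prod_insert ha]
    ring

end

end Pool.Agent.H445
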