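import Pool.Agent.H445.A1

open MvPolynomial

namespace Pool.Agent.H445

noncomputable section

def Gp (n t : ℕ) (σ : ℕ → ℕ) (k0 k : ℕ) : S :=
  PY n (Finset.Ico (k0 * t) (k * t)) * PX n (Finset.Ico (σ k) t)

def Bk (n t k : ℕ) : S := PY n (Finset.Ico (k * t) ((k + 1) * t))
def Ak (n : ℕ) (σ : ℕ → ℕ) (k : ℕ) : S := PX n (Finset.Ico (σ k) (σ (k + 1)))

lemma Gp_self (n t : ℕ) (σ : ℕ → ℕ) (k : ℕ) : Gp n t σ k k = PX n (Finset.Ico (σ k) t) := by
  simp [Gp, PY]

lemma Bk_mul_Gp (n t : ℕ) (σ : ℕ → ℕ) {k0 k : ℕ} (h : k0 + 1 ≤ k) :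
    Bk n t k0 * Gp n t σ (k0 + 1) k = Gp n t σ k0 k := by
  rw [Gp, Gp, Bk, ← mul_assoc, PY, PY, PY,
    Finset.prod_Ico_consecutive _ (Nat.mul_le_mul_right _ (Nat.le_succ _))
      (Nat.mul_le_mul_right _ h)]

lemma Ak_mul (n t : ℕ) (σ : ℕ → ℕ) (hm : Monotone σ) {k : ℕ} (h : σ (k + 1) ≤ t) :
    Ak n σ k * PX n (Finset.Ico (σ (k + 1)) t) = PX n (Finset.Ico (σ k) t) := by
  rw [Ak, PX, PX, PX, Finset.prod_Ico_consecutive _ (hm (Nat.le_succ _)) h]

lemma sxsy_PY_ne {n : ℕ} (hn : n ≠ 0) {J : Finset ℕ} {j : ℕ} (hJ : ∀ j ∈ J, j < n) (hj : j < n)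
    (h : j ∉ J) (i : ℕ) : sx n i (sy n j (PY n J)) ≠ 0 := by
  rw [PY, map_prod, map_prod]
  refine Finset.prod_ne_zero_iff.2 ?_
  intro j' hj'
  rw [sy_ly, map_mul, sx_C, sx_X2]
  refine diff_ne hn hj (hJ j' hj') ?_
  rintro rfl; exact h hj'

lemma stair_mem {n t s : ℕ} (σ : ℕ → ℕ) (hn : n ≠ 0) (hm : Monotone σ) (hσ : σ s = t)
    (hs : s * t ≤ n) (ht : t ≤ n) (htp : 0 < t) : ∀ d k0 : ℕ, k0 + d = s → ∀ w : S,
    (∀ j ∈ Finset.Ico (k0 * t) (s * t), ∀ i ∈ Finset.Ico (σ (j / t)) t,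
      sx n i (sy n j w) = 0) →
    ∃ q : ℕ → S, w = ∑ k ∈ Finset.Ico k0 (s + 1), q k * Gp n t σ k0 k := by
  intro d
  induction d with
  | zero =>
    intro k0 hk w hw
    rw [add_zero] at hk
    subst hk
    refine ⟨fun _ => w, ?_⟩
    simp [Gp_self, hσ, PX]
  | succ d ih =>
    intro k0 hk w hw
    have hks : k0 + 1 ≤ s := by omega
    have hkt : (k0 + 1) * t ≤ s * t := Nat.mul_le_mul_right _ hks
    obtain ⟨m, r, e⟩ := grid hn (Finset.Ico (σ k0) t) (Finset.Ico (k0 * t) ((k0 + 1) * t))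
      (by intro j hj; rw [Finset.mem_Ico] at hj; omega)
      (by intro j hj; rw [Finset.mem_Ico] at hj; omega) w (by
        intro i hi j hj
        have hj' := Finset.mem_Ico.1 hj
        have hdiv : j / t = k0 := by
          apply Nat.div_eq_of_lt_le
          · exact hj'.1
          · exact hj'.2
        refine hw j (Finset.mem_Ico.2 ⟨hj'.1, by omega⟩) i ?_
        rw [hdiv]; exact hi)
    obtain ⟨q, hq⟩ := ih (k0 + 1) (by omega) r (by
      intro j hj i hi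
      have hj' := Finset.mem_Ico.1 hj
      have hi' := Finset.mem_Ico.1 hi
      have hle : k0 + 1 ≤ j / t := (Nat.le_div_iff_mul_le htp).2 hj'.1
      have hjk : k0 * t ≤ j := le_trans (Nat.mul_le_mul_right _ (Nat.le_succ _)) hj'.1
      have h1 := hw j (Finset.mem_Ico.2 ⟨hjk, hj'.2⟩) i hi
      have hσk : σ k0 ≤ i := le_trans (hm (by omega)) hi'.1
      rw [e, map_add, map_mul, map_mul, sy_PX, map_add, map_mul, map_mul,
        sx_PX (Finset.mem_Ico.2 ⟨hσk, hi'.2⟩), zero_mul, zero_add, mul_eq_zero] at h1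
      refine h1.resolve_left (sxsy_PY_ne hn ?_ (by omega) ?_ i)
      · intro j2 hj2; rw [Finset.mem_Ico] at hj2; omega
      · rw [Finset.mem_Ico]; omega)
    refine ⟨fun k => if k = k0 then m else q k, ?_⟩
    rw [Finset.sum_eq_sum_Ico_succ_bot (by omega), e, hq]
    dsimp only
    rw [if_pos rfl, Gp_self, Finset.mul_sum, mul_comm m]
    congr 1
    refine Finset.sum_congr rfl fun k hk2 => ?_
    rw [Finset.mem_Ico] at hk2
    rw [if_neg (by omega), ← Bk_mul_Gp n t σ hk2.1, Bk]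
    ring

lemma stair_rel {n t s : ℕ} (σ : ℕ → ℕ) (hn : n ≠ 0) (hm : Monotone σ) (hσ : σ s = t)
    (hs : s * t ≤ n) : ∀ d k0 : ℕ, k0 + d = s → ∀ q : ℕ → S,
    ∑ k ∈ Finset.Ico k0 (s + 1), q k * Gp n t σ k0 k = 0 →
    ∃ p : ℕ → S, p s = 0 ∧ q k0 = p k0 * Bk n t k0 ∧
      ∀ k, k0 ≤ k → k < s → q (k + 1) = p (k + 1) * Bk n t (k + 1) - p k * Ak n σ k := by
  intro d
  induction d with
  | zero =>
    intro k0 hk q hq
    rw [add_zero] at hk
    subst hk
    refine ⟨fun _ => 0, rfl, ?_, ?_⟩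
    · simpa [Gp_self, hσ, PX] using hq
    · intro k h1 h2; omega
  | succ d ih =>
    intro k0 hk q hq
    have hks : k0 + 1 ≤ s := by omega
    have hkt : (k0 + 1) * t ≤ s * t := Nat.mul_le_mul_right _ hks
    rw [Finset.sum_eq_sum_Ico_succ_bot (by omega), Gp_self] at hq
    have hsum : ∑ k ∈ Finset.Ico (k0 + 1) (s + 1), q k * Gp n t σ k0 k
        = Bk n t k0 * ∑ k ∈ Finset.Ico (k0 + 1) (s + 1), q k * Gp n t σ (k0 + 1) k := by
      rw [Finset.mul_sum]
      refine Finset.sum_congr rfl fun k hk2 => ?_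
      rw [Finset.mem_Ico] at hk2
      rw [← Bk_mul_Gp n t σ hk2.1]; ring
    rw [hsum] at hq
    obtain ⟨p0, hp0⟩ : Bk n t k0 ∣ q k0 := by
      refine PY_dvd hn _ (by intro j hj; rw [Finset.mem_Ico] at hj; omega) _ ?_
      intro j hj
      have h1 := congrArg (sy n j) hq
      rw [map_add, map_mul, map_mul, sy_PX, Bk, sy_PY hj, zero_mul, add_zero, map_zero,
        mul_eq_zero] at h1
      exact h1.resolve_right (PX_ne _ _)
    have hσk : σ (k0 + 1) ≤ t := hσ ▸ hm hks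
    have hq2 : p0 * PX n (Finset.Ico (σ k0) t)
        + ∑ k ∈ Finset.Ico (k0 + 1) (s + 1), q k * Gp n t σ (k0 + 1) k = 0 := by
      have hB : Bk n t k0 ≠ 0 := PY_ne _ _
      apply mul_left_cancel₀ hB
      rw [mul_zero, ← hq, hp0]; ring
    obtain ⟨p', h1, h2, h3⟩ := ih (k0 + 1) (by omega)
      (fun k => if k = k0 + 1 then q k + p0 * Ak n σ k0 else q k) (by
        rw [Finset.sum_eq_sum_Ico_succ_bot (by omega), if_pos rfl, Gp_self]
        rw [Finset.sum_eq_sum_Ico_succ_bot (by omega), Gp_self] at hq2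
        rw [← hq2, ← Ak_mul n t σ hm hσk]
        have : ∑ k ∈ Finset.Ico (k0 + 1 + 1) (s + 1),
            (if k = k0 + 1 then q k + p0 * Ak n σ k0 else q k) * Gp n t σ (k0 + 1) k
            = ∑ k ∈ Finset.Ico (k0 + 1 + 1) (s + 1), q k * Gp n t σ (k0 + 1) k := by
          refine Finset.sum_congr rfl fun k hk2 => ?_
          rw [Finset.mem_Ico] at hk2
          rw [if_neg (by omega)]
        rw [this]; ring)
    refine ⟨fun k => if k ≤ k0 then p0 else p' k, ?_, ?_, ?_⟩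
    · dsimp only; rw [if_neg (by omega)]; exact h1
    · dsimp only; rw [if_pos le_rfl, hp0]; ring
    · intro k hk1 hk2
      dsimp only
      rcases Nat.eq_or_lt_of_le hk1 with h | h
      · subst h
        rw [if_neg (by omega), if_pos le_rfl]
        rw [if_pos rfl] at h2
        rw [← h2]; ring
      · rw [if_neg (by omega), if_neg (by omega)]
        have := h3 k h hk2
        rw [if_neg (by omega)] at this
        exact this

end

end Pool.Agent.H445
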