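import Pool.Agent.H445.A2

open MvPolynomial

namespace Pool.Agent.H445

noncomputable section

lemma pow_sub_pow_X {n : ℕ} (hn : n ≠ 0) (y : S) (w : S) :
    y ^ n - w ^ n = ∏ i ∈ Finset.range n, (y - C (zt n i) * w) := by
  have hprim := (Complex.isPrimitiveRoot_exp n hn).map_of_injective
    (f := (C : ℂ →+* S)) (C_injective _ _)
  rw [hprim.pow_sub_pow_eq_prod_sub_mul y w (Nat.pos_of_ne_zero hn)]
  have hinj : Set.InjOn (fun i => (C (zt n i) : S)) (Finset.range n : Set ℕ) := by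
    intro i hi j hj h
    simp only [Finset.coe_range, Set.mem_Iio] at hi hj
    exact zt_inj hn hi hj (C_injective _ _ h)
  have himg : Polynomial.nthRootsFinset n (1 : S)
      = (Finset.range n).image (fun i => (C (zt n i) : S)) := by
    symm
    apply Finset.eq_of_subset_of_card_le
    · intro x hx
      rw [Finset.mem_image] at hx
      obtain ⟨i, hi, rfl⟩ := hx
      rw [Polynomial.mem_nthRootsFinset (Nat.pos_of_ne_zero hn), ← C_pow, zt_pow hn, C_1]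
    · rw [hprim.card_nthRootsFinset, Finset.card_image_of_injOn hinj, Finset.card_range]
  rw [himg, Finset.prod_image hinj]

lemma PP_eq {n : ℕ} (hn : n ≠ 0) : (X 0 ^ n - X 2 ^ n : S) = PX n (Finset.range n) :=
  pow_sub_pow_X hn _ _
lemma QQ_eq {n : ℕ} (hn : n ≠ 0) : (X 1 ^ n - X 2 ^ n : S) = PY n (Finset.range n) :=
  pow_sub_pow_X hn _ _

def Fc (n : ℕ) (lam c : ℂ) : S :=
  (X 0 ^ (n + 1) - C ((n : ℂ) + 1) * X 0 * X 2 ^ n)
  + C lam * (X 1 ^ (n + 1) - C ((n : ℂ) + 1) * X 1 * X 2 ^ n) - C c * X 2 ^ (n + 1)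

lemma hC (m : ℕ) (a : ℂ) {p : S} (hp : p.IsHomogeneous m) : (C a * p).IsHomogeneous m := by
  have := (isHomogeneous_C (Fin 3) a).mul hp
  rwa [zero_add] at this

lemma Fc_hom (n : ℕ) (lam c : ℂ) : (Fc n lam c).IsHomogeneous (n + 1) := by
  have hx : ∀ k : Fin 3, (X k ^ (n + 1) : S).IsHomogeneous (n + 1) := fun k => by
    have := (isHomogeneous_X ℂ k).pow (n + 1)
    rwa [one_mul] at this
  have hxz : ∀ k : Fin 3, (C ((n : ℂ) + 1) * X k * X 2 ^ n : S).IsHomogeneous (n + 1) := fun k => by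
    have h1 := hC 1 ((n : ℂ) + 1) (isHomogeneous_X ℂ k)
    have h2 := (isHomogeneous_X ℂ (2 : Fin 3)).pow n
    have := h1.mul h2
    rwa [one_mul, add_comm 1 n] at this
  unfold Fc
  exact (((hx 0).sub (hxz 0)).add (hC _ _ ((hx 1).sub (hxz 1)))).sub (hC _ _ (hx 2))

lemma pderiv0_Fc (n : ℕ) (lam c : ℂ) :
    pderiv 0 (Fc n lam c) = C ((n : ℂ) + 1) * (X 0 ^ n - X 2 ^ n) := by
  unfold Fc
  simp only [map_sub, map_add, pderiv_mul, pderiv_pow, pderiv_C, pderiv_X_self,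
    pderiv_X_of_ne (show (2 : Fin 3) ≠ 0 by decide), pderiv_X_of_ne (show (1 : Fin 3) ≠ 0 by decide)]
  simp
  ring

lemma pderiv1_Fc (n : ℕ) (lam c : ℂ) :
    pderiv 1 (Fc n lam c) = C lam * C ((n : ℂ) + 1) * (X 1 ^ n - X 2 ^ n) := by
  unfold Fc
  simp only [map_sub, map_add, pderiv_mul, pderiv_pow, pderiv_C, pderiv_X_self,
    pderiv_X_of_ne (show (2 : Fin 3) ≠ 1 by decide), pderiv_X_of_ne (show (0 : Fin 3) ≠ 1 by decide)]
  simp
  ring

def ff (n : ℕ) (lam : ℂ) (V : Finset ℂ) : S := ∏ c ∈ V, Fc n lam c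
def hh (n : ℕ) (lam : ℂ) (V : Finset ℂ) : S := ∑ c ∈ V, ∏ c' ∈ V.erase c, Fc n lam c'

lemma pderiv_prod' (F : ℂ → S) (V : Finset ℂ) (k : Fin 3) :
    pderiv k (∏ c ∈ V, F c) = ∑ c ∈ V, (∏ c' ∈ V.erase c, F c') * pderiv k (F c) := by
  induction V using Finset.induction_on with
  | empty => simp
  | insert a W ha ih =>
    rw [Finset.prod_insert ha, pderiv_mul, ih, Finset.sum_insert ha, Finset.erase_insert ha,
      Finset.mul_sum]
    rw [mul_comm (pderiv k (F a))]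
    congr 1
    refine Finset.sum_congr rfl fun c hc => ?_
    have hne : a ≠ c := by rintro rfl; exact ha hc
    rw [Finset.erase_insert_of_ne hne, Finset.prod_insert (by
      intro h; exact ha (Finset.mem_of_mem_erase h))]
    ring

lemma pderiv0_ff {n : ℕ} (hn : n ≠ 0) (lam : ℂ) (V : Finset ℂ) :
    pderiv 0 (ff n lam V) = hh n lam V * (C ((n : ℂ) + 1) * PX n (Finset.range n)) := by
  rw [ff, pderiv_prod', hh, Finset.sum_mul]
  refine Finset.sum_congr rfl fun c _ => ?_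
  rw [pderiv0_Fc, PP_eq hn]

lemma pderiv1_ff {n : ℕ} (hn : n ≠ 0) (lam : ℂ) (V : Finset ℂ) :
    pderiv 1 (ff n lam V) = hh n lam V * (C lam * C ((n : ℂ) + 1) * PY n (Finset.range n)) := by
  rw [ff, pderiv_prod', hh, Finset.sum_mul]
  refine Finset.sum_congr rfl fun c _ => ?_
  rw [pderiv1_Fc, QQ_eq hn]

lemma ff_hom (n : ℕ) (lam : ℂ) (V : Finset ℂ) :
    (ff n lam V).IsHomogeneous (V.card * (n + 1)) := by
  have := IsHomogeneous.prod V (fun c => Fc n lam c) (fun _ => n + 1) (fun c _ => Fc_hom n lam c)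
  rwa [Finset.sum_const, smul_eq_mul] at this

lemma hh_hom (n : ℕ) (lam : ℂ) (V : Finset ℂ) :
    (hh n lam V).IsHomogeneous ((V.card - 1) * (n + 1)) := by
  unfold hh
  refine IsHomogeneous.sum _ _ _ fun c hc => ?_
  have := IsHomogeneous.prod (V.erase c) (fun c => Fc n lam c) (fun _ => n + 1)
    (fun c _ => Fc_hom n lam c)
  rwa [Finset.sum_const, smul_eq_mul, Finset.card_erase_of_mem hc] at this

def vv (n : ℕ) (lam : ℂ) (i j : ℕ) : ℂ := -(n : ℂ) * (zt n i + lam * zt n j)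

lemma sxsy_Fc {n : ℕ} (hn : n ≠ 0) (lam c : ℂ) (i j : ℕ) :
    sx n i (sy n j (Fc n lam c)) = C (vv n lam i j - c) * X 2 ^ (n + 1) := by
  unfold Fc
  simp only [map_sub, map_add, map_mul, map_pow, sy_X0, sy_X1, sy_X2, sy_C, sx_X0, sx_X2, sx_C]
  have h1 : (C (zt n i) * X 2 : S) ^ (n + 1) = C (zt n i) * X 2 ^ (n + 1) := by
    rw [mul_pow, ← C_pow, pow_succ (zt n i), zt_pow hn, one_mul]
  have h2 : (C (zt n j) * X 2 : S) ^ (n + 1) = C (zt n j) * X 2 ^ (n + 1) := by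
    rw [mul_pow, ← C_pow, pow_succ (zt n j), zt_pow hn, one_mul]
  rw [h1, h2, vv]
  simp only [map_sub, map_add, map_mul, map_neg, C_1]
  ring

lemma sxsy_ff_zero {n : ℕ} (hn : n ≠ 0) (lam : ℂ) (V : Finset ℂ) (i j : ℕ)
    (h : vv n lam i j ∈ V) : sx n i (sy n j (ff n lam V)) = 0 := by
  rw [ff, map_prod, map_prod]
  refine Finset.prod_eq_zero h ?_
  rw [sxsy_Fc hn]; simp

lemma sxsy_ff_ne {n : ℕ} (hn : n ≠ 0) (lam : ℂ) (V : Finset ℂ) (i j : ℕ)
    (h : vv n lam i j ∉ V) : sx n i (sy n j (ff n lam V)) ≠ 0 := by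
  rw [ff, map_prod, map_prod]
  refine Finset.prod_ne_zero_iff.2 fun c hc => ?_
  rw [sxsy_Fc hn]
  refine mul_ne_zero ?_ (pow_ne_zero _ X2_ne)
  rw [Ne, C_eq_zero, sub_eq_zero]
  rintro e
  exact h (e ▸ hc)

lemma euler_sxsy {n : ℕ} (hn : n ≠ 0) (lam : ℂ) (V : Finset ℂ) {i j : ℕ} (hi : i < n)
    (hj : j < n) :
    X 2 * sx n i (sy n j (pderiv 2 (ff n lam V)))
      = ((V.card * (n + 1) : ℕ) : S) * sx n i (sy n j (ff n lam V)) := by
  have h := (ff_hom n lam V).sum_X_mul_pderiv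
  rw [Fin.sum_univ_three, nsmul_eq_mul] at h
  have h2 := congrArg (fun w => sx n i (sy n j w)) h
  simp only [map_add, map_mul, map_natCast] at h2
  rw [pderiv0_ff hn, pderiv1_ff hn] at h2
  simp only [map_mul] at h2
  rw [sy_PX, sx_PX (Finset.mem_range.2 hi), sy_PY (Finset.mem_range.2 hj)] at h2
  rw [sy_X2, sx_X2] at h2
  simp only [map_zero, mul_zero, zero_add] at h2
  exact h2

lemma sxsy_fz_zero {n : ℕ} (hn : n ≠ 0) (lam : ℂ) (V : Finset ℂ) {i j : ℕ} (hi : i < n)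
    (hj : j < n) (h : vv n lam i j ∈ V) : sx n i (sy n j (pderiv 2 (ff n lam V))) = 0 := by
  have h1 := euler_sxsy hn lam V hi hj
  rw [sxsy_ff_zero hn lam V i j h, mul_zero, mul_eq_zero] at h1
  exact h1.resolve_left X2_ne

lemma sxsy_fz_ne {n : ℕ} (hn : n ≠ 0) (lam : ℂ) (V : Finset ℂ) (hV : V.card ≠ 0) {i j : ℕ}
    (hi : i < n) (hj : j < n) (h : vv n lam i j ∉ V) :
    sx n i (sy n j (pderiv 2 (ff n lam V))) ≠ 0 := by
  intro h0
  have h1 := euler_sxsy hn lam V hi hj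
  rw [h0, mul_zero] at h1
  have h2 := (mul_eq_zero.1 h1.symm).resolve_right (sxsy_ff_ne hn lam V i j h)
  rw [Nat.cast_eq_zero] at h2
  exact (Nat.mul_ne_zero hV (Nat.succ_ne_zero n)) h2

lemma eval_Fc (n : ℕ) (lam c : ℂ) : eval ![1, 0, 0] (Fc n lam c) = 1 ∨ n = 0 := by
  by_cases h : n = 0
  · right; exact h
  · left
    simp [Fc, h]

lemma no_common {n : ℕ} (hn : n ≠ 0) (lam : ℂ) {c c' : ℂ} (hne : c ≠ c') {g : S} (hg : Prime g)
    (h1 : g ∣ Fc n lam c) (h2 : g ∣ Fc n lam c') : False := by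
  have h3 : g ∣ C (c' - c) * X 2 ^ (n + 1) := by
    have : (C (c' - c) * X 2 ^ (n + 1) : S) = Fc n lam c - Fc n lam c' := by
      simp only [Fc, map_sub]; ring
    rw [this]; exact dvd_sub h1 h2
  have h4 : g ∣ X 2 := by
    rcases hg.dvd_or_dvd h3 with h | h
    · exfalso
      apply hg.not_isUnit
      refine isUnit_of_dvd_unit h ?_
      rw [MvPolynomial.isUnit_iff_eq_C_of_isReduced]
      exact ⟨c' - c, isUnit_iff_ne_zero.2 (sub_ne_zero.2 hne.symm), rfl⟩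
    · exact hg.dvd_of_dvd_pow h
  have hX : Irreducible (X 2 : S) := (X_prime (R := ℂ) (i := (2 : Fin 3))).irreducible
  have h5 : (X 2 : S) ∣ g := by
    obtain ⟨r, hr⟩ := h4
    rcases hX.isUnit_or_isUnit hr with h | h
    · exact absurd h hg.not_isUnit
    · obtain ⟨r', hr'⟩ := h.dvd_mul_left (a := (X 2 : S)) |>.2 (dvd_refl _) |> fun _ => h.exists_right_inv
      exact ⟨r', by rw [hr, mul_assoc, hr', mul_one]⟩
  obtain ⟨w, hw⟩ := h5.trans h1
  have := congrArg (eval ![1, 0, 0]) hw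
  rcases eval_Fc n lam c with h | h
  · rw [h] at this
    simp at this
  · exact hn h

lemma ff_squarefree {n : ℕ} (hn : n ≠ 0) {lam : ℂ} (hl : lam ≠ 0) (V : Finset ℂ) :
    Squarefree (ff n lam V) := by
  have hff : ff n lam V ≠ 0 := by
    rw [ff, Finset.prod_ne_zero_iff]
    intro c _ h
    have := congrArg (eval ![1, 0, 0]) h
    rcases eval_Fc n lam c with h | h
    · rw [h] at this; simp at this
    · exact hn h
  rw [squarefree_iff_no_irreducibles hff]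
  intro g hg hgg
  have hp : Prime g := hg.prime
  obtain ⟨c, hc, hgc⟩ := hp.exists_mem_finset_dvd ((dvd_mul_right g g).trans hgg)
  have hrest : ¬ g ∣ ∏ c' ∈ V.erase c, Fc n lam c' := by
    intro h
    obtain ⟨c', hc', hgc'⟩ := hp.exists_mem_finset_dvd h
    exact no_common hn lam (Finset.ne_of_mem_erase hc').symm hp hgc hgc'
  have h2 : g ^ 2 ∣ Fc n lam c := by
    apply hp.pow_dvd_of_dvd_mul_right 2 hrest
    rw [Finset.mul_prod_erase V (fun c => Fc n lam c) hc, sq]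
    exact hgg
  obtain ⟨r, hr⟩ := h2
  have hd : ∀ k : Fin 3, g ∣ pderiv k (Fc n lam c) := by
    intro k
    rw [hr, sq, pderiv_mul, pderiv_mul]
    exact ⟨pderiv k g * r + pderiv k g * r + g * pderiv k r, by ring⟩
  have hunit : ∀ a : ℂ, a ≠ 0 → ¬ g ∣ C a := by
    intro a ha h
    apply hp.not_isUnit
    refine isUnit_of_dvd_unit h ?_
    rw [MvPolynomial.isUnit_iff_eq_C_of_isReduced]
    exact ⟨a, isUnit_iff_ne_zero.2 ha, rfl⟩
  have hn1 : ((n : ℂ) + 1) ≠ 0 := Nat.cast_add_one_ne_zero n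
  have h0 := hd 0
  rw [pderiv0_Fc, PP_eq hn] at h0
  have h1 := hd 1
  rw [pderiv1_Fc, QQ_eq hn, ← C_mul] at h1
  obtain ⟨i, _, hi⟩ := hp.exists_mem_finset_dvd ((hp.dvd_or_dvd h0).resolve_left (hunit _ hn1))
  obtain ⟨j, _, hj⟩ := hp.exists_mem_finset_dvd
    ((hp.dvd_or_dvd h1).resolve_left (hunit _ (mul_ne_zero hl hn1)))
  have h3 : lx n i ∣ ly n j := (hg.dvd_symm (lx_prime n i).irreducible hi).trans hj
  rw [lx_dvd_iff, sx_ly] at h3
  exact ly_ne _ _ h3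

lemma hh_ne {n : ℕ} (hn : n ≠ 0) (lam : ℂ) {V : Finset ℂ} (hV : V.card ≠ 0) :
    hh n lam V ≠ 0 := by
  intro h
  have h1 := congrArg (eval ![1, 0, 0]) h
  rw [hh, map_sum, map_zero] at h1
  have h2 : ∀ c ∈ V, eval ![1, 0, 0] (∏ c' ∈ V.erase c, Fc n lam c') = 1 := by
    intro c _
    rw [map_prod]
    refine Finset.prod_eq_one fun c' _ => ?_
    exact (eval_Fc n lam c').resolve_right hn
  rw [Finset.sum_congr rfl h2, Finset.sum_const, nsmul_eq_mul, mul_one, Nat.cast_eq_zero] at h1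
  exact hV h1

lemma hh_rel {n : ℕ} (hn : n ≠ 0) (lam : ℂ) {V : Finset ℂ} (hV : V.card ≠ 0) {g : S}
    (h1 : g ∣ hh n lam V) (h2 : g ∣ pderiv 2 (ff n lam V)) : ¬ Prime g := by
  intro hp
  have hE := (ff_hom n lam V).sum_X_mul_pderiv
  rw [Fin.sum_univ_three, nsmul_eq_mul, pderiv0_ff hn, pderiv1_ff hn] at hE
  have h3 : g ∣ ((V.card * (n + 1) : ℕ) : S) * ff n lam V := by
    rw [← hE]
    exact dvd_add (dvd_add (Dvd.dvd.mul_left (h1.mul_right _) _)
      (Dvd.dvd.mul_left (h1.mul_right _) _)) (Dvd.dvd.mul_left h2 _)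
  have h4 : g ∣ ff n lam V := by
    rcases hp.dvd_or_dvd h3 with h | h
    · exfalso
      apply hp.not_isUnit
      refine isUnit_of_dvd_unit h ?_
      rw [MvPolynomial.isUnit_iff_eq_C_of_isReduced]
      refine ⟨((V.card * (n + 1) : ℕ) : ℂ), isUnit_iff_ne_zero.2 ?_, by simp⟩
      exact_mod_cast Nat.mul_ne_zero hV (Nat.succ_ne_zero n)
    · exact h
  obtain ⟨c, hc, hgc⟩ := hp.exists_mem_finset_dvd h4
  have h5 : g ∣ ∏ c' ∈ V.erase c, Fc n lam c' := by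
    have e : ∏ c' ∈ V.erase c, Fc n lam c'
        = hh n lam V - ∑ c2 ∈ V.erase c, ∏ c' ∈ V.erase c2, Fc n lam c' := by
      rw [hh, ← Finset.add_sum_erase V _ hc]; ring
    rw [e]
    refine dvd_sub h1 (Finset.dvd_sum fun c2 hc2 => ?_)
    refine hgc.trans (Finset.dvd_prod_of_mem _ ?_)
    exact Finset.mem_erase.2 ⟨(Finset.ne_of_mem_erase hc2).symm, hc⟩
  obtain ⟨c', hc', hgc'⟩ := hp.exists_mem_finset_dvd h5
  exact no_common hn lam (Finset.ne_of_mem_erase hc').symm hp hgc hgc'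

lemma hh_dvd {n : ℕ} (hn : n ≠ 0) (lam : ℂ) {V : Finset ℂ} (hV : V.card ≠ 0) {c : S}
    (h : hh n lam V ∣ c * pderiv 2 (ff n lam V)) : hh n lam V ∣ c :=
  UniqueFactorizationMonoid.dvd_of_dvd_mul_left_of_no_prime_factors (hh_ne hn lam hV)
    (fun _ h1 h2 => hh_rel hn lam hV h1 h2) h

end

end Pool.Agent.H445
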