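import Mathlib

namespace Pool.Agent.H445

section
variable {R : Type*} [CommRing R] [IsDomain R]

/-- first matrix -/
def matA (s : ℕ) (P Q h : R) (al be G : ℕ → R) : Matrix (Fin 3) (Fin (s + 2)) R :=
  fun i j => Fin.cases ((![Q, -P, 0] : Fin 3 → R) i)
    (fun k : Fin (s + 1) => (![al k, be k, h * G k] : Fin 3 → R) i) j

/-- second matrix -/
def matB (s : ℕ) (ka Bk Ak : ℕ → R) : Matrix (Fin (s + 2)) (Fin s) R :=
  fun j k => Fin.cases (-ka k)
    (fun k' : Fin (s + 1) => (if k' = k.castSucc then Bk k else 0)
      - (if k' = k.succ then Ak k else 0)) j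

def ext0 {s : ℕ} (u : Fin s → R) (k : ℕ) : R := if h : k < s then u ⟨k, h⟩ else 0

lemma matA_mulVec (s : ℕ) (P Q h : R) (al be G : ℕ → R) (w : Fin (s + 2) → R) (i : Fin 3) :
    (matA s P Q h al be G).mulVec w i = (![Q, -P, 0] : Fin 3 → R) i * w 0
      + ∑ k : Fin (s + 1), (![al k, be k, h * G k] : Fin 3 → R) i * w k.succ := by
  rw [Matrix.mulVec, dotProduct, Fin.sum_univ_succ]
  rfl

lemma matB_succ (s : ℕ) (ka Bk Ak : ℕ → R) (u : Fin s → R) (k' : Fin (s + 1)) :
    (matB s ka Bk Ak).mulVec u k'.succ = Bk k' * ext0 u k'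
      - (if (k' : ℕ) = 0 then 0 else Ak (k' - 1) * ext0 u (k' - 1)) := by
  have e : (matB s ka Bk Ak).mulVec u k'.succ
      = ∑ k : Fin s, ((if k' = k.castSucc then Bk k else 0)
      - (if k' = k.succ then Ak k else 0)) * u k := rfl
  rw [e]
  simp only [sub_mul, ite_mul, zero_mul]
  rw [Finset.sum_sub_distrib]
  congr 1
  · by_cases h : (k' : ℕ) < s
    · rw [Finset.sum_eq_single (⟨k', h⟩ : Fin s)]
      · rw [if_pos (by ext; simp), ext0, dif_pos h]
      · intro b _ hb
        rw [if_neg]
        intro e2
        apply hb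
        ext
        have := congrArg Fin.val e2
        simpa using this.symm
      · intro h'; exact absurd (Finset.mem_univ _) h'
    · rw [ext0, dif_neg h, mul_zero]
      refine Finset.sum_eq_zero fun k _ => ?_
      rw [if_neg]
      intro e2
      have := congrArg Fin.val e2
      simp only [Fin.val_castSucc] at this
      omega
  · by_cases h0 : (k' : ℕ) = 0
    · rw [if_pos h0]
      refine Finset.sum_eq_zero fun k _ => ?_
      rw [if_neg]
      intro e2
      have := congrArg Fin.val e2
      simp only [Fin.val_succ] at this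
      omega
    · rw [if_neg h0]
      have h : (k' : ℕ) - 1 < s := by have := k'.2; omega
      rw [Finset.sum_eq_single (⟨(k' : ℕ) - 1, h⟩ : Fin s)]
      · rw [if_pos (by ext; simp; omega), ext0, dif_pos h]
      · intro b _ hb
        rw [if_neg]
        intro e2
        apply hb
        ext
        have := congrArg Fin.val e2
        simp only [Fin.val_succ] at this
        simp only
        omega
      · intro h'; exact absurd (Finset.mem_univ _) h'

theorem exact_of (s : ℕ) (f : Fin 3 → R) (P Q h : R) (al be G ka Bk Ak : ℕ → R)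
    (hQ : Q ≠ 0) (hh : h ≠ 0) (hB : ∀ k, Bk k ≠ 0)
    (H2 : Q * f 0 - P * f 1 = 0)
    (H3 : ∀ k, k ≤ s → al k * f 0 + be k * f 1 + h * G k * f 2 = 0)
    (H4 : ∀ k, k < s → Bk k * al k - Ak k * al (k + 1) = ka k * Q ∧
      Bk k * be k - Ak k * be (k + 1) = -(ka k * P) ∧ Bk k * G k = Ak k * G (k + 1))
    (H5 : ∀ a b, a * f 0 + b * f 1 = 0 → ∃ c, a = c * Q ∧ b = -(c * P))
    (H6 : ∀ v0 v1 v2, v0 * f 0 + v1 * f 1 + v2 * f 2 = 0 →
      ∃ q : ℕ → R, v2 = h * ∑ k ∈ Finset.range (s + 1), q k * G k)
    (H7 : ∀ q : ℕ → R, ∑ k ∈ Finset.range (s + 1), q k * G k = 0 →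
      ∃ p : ℕ → R, p s = 0 ∧ q 0 = p 0 * Bk 0 ∧
        ∀ k, k < s → q (k + 1) = p (k + 1) * Bk (k + 1) - p k * Ak k) :
    (∀ v : Fin 3 → R, (∑ i, v i * f i = 0) ↔ ∃ w, v = (matA s P Q h al be G).mulVec w) ∧
    (∀ w : Fin (s + 2) → R, (matA s P Q h al be G).mulVec w = 0 ↔
      ∃ u, w = (matB s ka Bk Ak).mulVec u) ∧
    (∀ u : Fin s → R, (matB s ka Bk Ak).mulVec u = 0 → u = 0) := by
  refine ⟨?_, ?_, ?_⟩
  · intro v
    constructor
    · intro hv
      rw [Fin.sum_univ_three] at hv
      obtain ⟨q, hq⟩ := H6 _ _ _ hv
      have hsumF : ∀ F : ℕ → R, ∑ k : Fin (s + 1), F k = ∑ k ∈ Finset.range (s + 1), F k :=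
        fun F => Fin.sum_univ_eq_sum_range F (s + 1)
      have h3 : ∑ k ∈ Finset.range (s + 1), q k * (al k * f 0 + be k * f 1 + h * G k * f 2) = 0 := by
        refine Finset.sum_eq_zero fun k hk => ?_
        rw [H3 k (by rw [Finset.mem_range] at hk; omega), mul_zero]
      obtain ⟨c, hc1, hc2⟩ := H5 (v 0 - ∑ k ∈ Finset.range (s + 1), q k * al k)
        (v 1 - ∑ k ∈ Finset.range (s + 1), q k * be k) (by
          have e : ∑ k ∈ Finset.range (s + 1), q k * (al k * f 0 + be k * f 1 + h * G k * f 2)
            = (∑ k ∈ Finset.range (s + 1), q k * al k) * f 0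
              + (∑ k ∈ Finset.range (s + 1), q k * be k) * f 1
              + (h * ∑ k ∈ Finset.range (s + 1), q k * G k) * f 2 := by
            rw [Finset.mul_sum, Finset.sum_mul, Finset.sum_mul, Finset.sum_mul,
              ← Finset.sum_add_distrib, ← Finset.sum_add_distrib]
            refine Finset.sum_congr rfl fun k _ => ?_
            ring
          rw [e, ← hq] at h3
          linear_combination hv - h3)
      refine ⟨Fin.cons c (fun k => q k), ?_⟩
      funext i
      rw [matA_mulVec]
      simp only [Fin.cons_zero, Fin.cons_succ]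
      fin_cases i
      · simp only [Fin.zero_eta, Matrix.cons_val_zero]
        rw [hsumF (fun k => al k * q k)]
        have : ∑ k ∈ Finset.range (s + 1), al k * q k = ∑ k ∈ Finset.range (s + 1), q k * al k :=
          Finset.sum_congr rfl fun k _ => mul_comm _ _
        rw [this]
        linear_combination hc1
      · simp only [Fin.mk_one, Matrix.cons_val_one]
        simp only [Matrix.cons_val_zero]
        rw [hsumF (fun k => be k * q k)]
        have : ∑ k ∈ Finset.range (s + 1), be k * q k = ∑ k ∈ Finset.range (s + 1), q k * be k :=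
          Finset.sum_congr rfl fun k _ => mul_comm _ _
        rw [this]
        linear_combination hc2
      · simp only [Fin.reduceFinMk, Matrix.cons_val]
        rw [hsumF (fun k => h * G k * q k), hq, Finset.mul_sum]
        rw [zero_mul, zero_add]
        refine Finset.sum_congr rfl fun k _ => ?_
        ring
    · rintro ⟨w, rfl⟩
      rw [Fin.sum_univ_three, matA_mulVec, matA_mulVec, matA_mulVec]
      simp only [Matrix.cons_val_zero, Matrix.cons_val_one, Matrix.cons_val]
      have e : ∑ k : Fin (s + 1), w k.succ * (al k * f 0 + be k * f 1 + h * G k * f 2) = 0 := by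
        refine Finset.sum_eq_zero fun k _ => ?_
        rw [H3 k (by have := k.2; omega), mul_zero]
      have e2 : ∑ k : Fin (s + 1), w k.succ * (al k * f 0 + be k * f 1 + h * G k * f 2)
          = (∑ k : Fin (s + 1), al k * w k.succ) * f 0 + (∑ k : Fin (s + 1), be k * w k.succ) * f 1
            + (∑ k : Fin (s + 1), h * G k * w k.succ) * f 2 := by
        rw [Finset.sum_mul, Finset.sum_mul, Finset.sum_mul,
              ← Finset.sum_add_distrib, ← Finset.sum_add_distrib]
        refine Finset.sum_congr rfl fun k _ => ?_
        ring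
      rw [e2] at e
      linear_combination e + w 0 * H2
  · intro w
    have hAB : ∀ u : Fin s → R, (matA s P Q h al be G).mulVec ((matB s ka Bk Ak).mulVec u) = 0 := by
      intro u
      have hzero : matA s P Q h al be G * matB s ka Bk Ak = 0 := by
        funext i k
        rw [Matrix.mul_apply, Fin.sum_univ_succ]
        have e1 : matA s P Q h al be G i 0 = (![Q, -P, 0] : Fin 3 → R) i := rfl
        have e2 : matB s ka Bk Ak 0 k = -ka k := rfl
        have e3 : ∀ k' : Fin (s + 1), matA s P Q h al be G i k'.succ
          = (![al k', be k', h * G k'] : Fin 3 → R) i := fun _ => rfl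
        have e4 : ∀ k' : Fin (s + 1), matB s ka Bk Ak k'.succ k
          = (if k' = k.castSucc then Bk k else 0) - (if k' = k.succ then Ak k else 0) := fun _ => rfl
        rw [e1, e2]
        simp only [e3, e4, mul_sub, mul_ite, mul_zero]
        rw [Finset.sum_sub_distrib, Finset.sum_ite_eq', Finset.sum_ite_eq',
          if_pos (Finset.mem_univ _), if_pos (Finset.mem_univ _)]
        obtain ⟨h1, h2, h3⟩ := H4 k k.2
        fin_cases i
        · simp only [Fin.zero_eta, Matrix.cons_val_zero, Fin.val_castSucc, Fin.val_succ,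
            Matrix.zero_apply]
          linear_combination h1
        · simp only [Fin.mk_one, Matrix.cons_val_one, Matrix.cons_val_zero, Fin.val_castSucc,
            Fin.val_succ, Matrix.zero_apply]
          linear_combination h2
        · simp only [Fin.reduceFinMk, Matrix.cons_val, Fin.val_castSucc, Fin.val_succ,
            Matrix.zero_apply]
          linear_combination h * h3
      rw [Matrix.mulVec_mulVec, hzero, Matrix.zero_mulVec]
    constructor
    · intro hw
      have h2 := congrFun hw 2
      rw [matA_mulVec] at h2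
      simp only [Matrix.cons_val, Pi.zero_apply, zero_mul, zero_add] at h2
      obtain ⟨p, hp1, hp2, hp3⟩ := H7 (fun k => if hk : k < s + 1 then w (Fin.succ ⟨k, hk⟩) else 0) (by
        have e : ∑ k : Fin (s + 1), h * G k * w k.succ
          = h * ∑ k ∈ Finset.range (s + 1),
            (if hk : k < s + 1 then w (Fin.succ ⟨k, hk⟩) else 0) * G k := by
          rw [Finset.mul_sum, ← Fin.sum_univ_eq_sum_range
            (fun k => h * ((if hk : k < s + 1 then w (Fin.succ ⟨k, hk⟩) else 0) * G k))]
          refine Finset.sum_congr rfl fun k _ => ?_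
          rw [dif_pos k.2]
          ring
        rw [e] at h2
        exact (mul_eq_zero.1 h2).resolve_left hh)
      refine ⟨fun k => p k, ?_⟩
      have hext : ∀ k, k ≤ s → ext0 (fun k : Fin s => p k) k = p k := by
        intro k hk
        rcases Nat.lt_or_eq_of_le hk with h' | h'
        · rw [ext0, dif_pos h']
        · rw [ext0, dif_neg (by omega), h', hp1]
      have hsucc : ∀ k' : Fin (s + 1), w k'.succ
          = (matB s ka Bk Ak).mulVec (fun k => p k) k'.succ := by
        intro k'
        have hk' := k'.2
        rw [matB_succ, hext _ (by omega)]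
        by_cases h0 : (k' : ℕ) = 0
        · rw [if_pos h0]
          have := hp2
          rw [dif_pos (by omega)] at this
          have e0 : (⟨0, by omega⟩ : Fin (s + 1)) = k' := by ext; simp [h0]
          rw [e0] at this
          rw [this, h0]; ring
        · rw [if_neg h0, hext _ (by omega)]
          have := hp3 ((k' : ℕ) - 1) (by omega)
          rw [show (k' : ℕ) - 1 + 1 = k' by omega, dif_pos hk'] at this
          have e0 : (⟨(k' : ℕ), hk'⟩ : Fin (s + 1)) = k' := rfl
          rw [e0] at this
          rw [this]; ring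
      have hw0 : w 0 = (matB s ka Bk Ak).mulVec (fun k => p k) 0 := by
        have hA := hAB (fun k => p k)
        have h3 := congrFun (hw.trans hA.symm) 0
        rw [matA_mulVec, matA_mulVec] at h3
        have e : ∑ k : Fin (s + 1), (![al k, be k, h * G k] : Fin 3 → R) 0 * w k.succ
          = ∑ k : Fin (s + 1), (![al k, be k, h * G k] : Fin 3 → R) 0
            * (matB s ka Bk Ak).mulVec (fun k => p k) k.succ :=
          Finset.sum_congr rfl fun k _ => by rw [hsucc]
        rw [e] at h3
        have h4 := add_right_cancel h3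
        simp only [Matrix.cons_val_zero] at h4
        exact mul_left_cancel₀ hQ h4
      funext j
      refine Fin.cases hw0 (fun k' => hsucc k') j
    · rintro ⟨u, rfl⟩
      exact hAB u
  · intro u hu
    have key : ∀ k, ext0 u k = 0 := by
      intro k
      induction k with
      | zero =>
        by_cases h0 : 0 < s
        · have h1 := congrFun hu (Fin.succ (⟨0, by omega⟩ : Fin (s + 1)))
          rw [matB_succ] at h1
          simp only [if_true, sub_zero, Pi.zero_apply] at h1
          exact (mul_eq_zero.1 h1).resolve_left (hB _)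
        · rw [ext0, dif_neg h0]
      | succ k ih =>
        by_cases h0 : k + 1 < s
        · have h1 := congrFun hu (Fin.succ (⟨k + 1, by omega⟩ : Fin (s + 1)))
          rw [matB_succ] at h1
          simp only [Nat.add_eq_zero_iff, one_ne_zero, and_false, if_false, Nat.add_sub_cancel,
            ih, mul_zero, sub_zero, Pi.zero_apply] at h1
          exact (mul_eq_zero.1 h1).resolve_left (hB _)
        · rw [ext0, dif_neg h0]
    funext k
    have := key k
    rw [ext0, dif_pos k.2] at this
    exact this

end

end Pool.Agent.H445
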