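import Pool.Agent.H445.A3
import Pool.Agent.H445.A4

open MvPolynomial

namespace Pool.Agent.H445

noncomputable section

attribute [local instance] MvPolynomial.gradedAlgebra

lemma hc_mul {a b : ℕ} {P : S} (m : S) (hP : P.IsHomogeneous a) :
    homogeneousComponent (a + b) (P * m) = P * homogeneousComponent b m := by
  have key : ∀ (i : ℕ) (φ : S),
      ((DirectSum.decompose (homogeneousSubmodule (Fin 3) ℂ) φ) i : S)
        = homogeneousComponent i φ := fun i φ => decomposition.decompose'_apply φ i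
  have h := DirectSum.coe_decompose_mul_add_of_left_mem (homogeneousSubmodule (Fin 3) ℂ)
    (i := a) (j := b) (a := P) (b := m) hP
  rw [key, key] at h
  exact h

lemma lift_hom {a b : ℕ} {w P Q m r : S} (hw : w.IsHomogeneous (a + b)) (hP : P.IsHomogeneous a)
    (hQ : Q.IsHomogeneous a) (h : w = P * m + Q * r) :
    ∃ m' r' : S, m'.IsHomogeneous b ∧ r'.IsHomogeneous b ∧ w = P * m' + Q * r' := by
  refine ⟨homogeneousComponent b m, homogeneousComponent b r,
    homogeneousComponent_isHomogeneous _ _, homogeneousComponent_isHomogeneous _ _, ?_⟩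
  rw [← hc_mul m hP, ← hc_mul r hQ, ← map_add, ← h]
  exact (homogeneousComponent_eq_self hw).symm

lemma factor_hom {a b : ℕ} {P q : S} (hP : P.IsHomogeneous a) (hP0 : P ≠ 0)
    (h : (P * q).IsHomogeneous (a + b)) : q.IsHomogeneous b := by
  have h1 := homogeneousComponent_eq_self h
  rw [hc_mul q hP] at h1
  have h2 := mul_left_cancel₀ hP0 h1
  rw [← h2]
  exact homogeneousComponent_isHomogeneous _ _

lemma lx_hom (n i : ℕ) : (lx n i).IsHomogeneous 1 :=
  (isHomogeneous_X ℂ 0).sub (hC _ _ (isHomogeneous_X ℂ 2))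
lemma ly_hom (n i : ℕ) : (ly n i).IsHomogeneous 1 :=
  (isHomogeneous_X ℂ 1).sub (hC _ _ (isHomogeneous_X ℂ 2))

lemma PX_hom (n : ℕ) (I : Finset ℕ) : (PX n I).IsHomogeneous I.card := by
  have := IsHomogeneous.prod I (fun c => lx n c) (fun _ => 1) (fun c _ => lx_hom n c)
  rwa [Finset.sum_const, smul_eq_mul, mul_one] at this
lemma PY_hom (n : ℕ) (I : Finset ℕ) : (PY n I).IsHomogeneous I.card := by
  have := IsHomogeneous.prod I (fun c => ly n c) (fun _ => 1) (fun c _ => ly_hom n c)
  rwa [Finset.sum_const, smul_eq_mul, mul_one] at this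

def gd (t : ℕ) (σ : ℕ → ℕ) (k : ℕ) : ℕ := k * t + (t - σ k)

lemma Gp_hom (n t : ℕ) (σ : ℕ → ℕ) (k : ℕ) : (Gp n t σ 0 k).IsHomogeneous (gd t σ k) := by
  have := (PY_hom n (Finset.Ico (0 * t) (k * t))).mul (PX_hom n (Finset.Ico (σ k) t))
  rw [Nat.card_Ico, Nat.card_Ico, zero_mul, Nat.sub_zero] at this
  rw [gd, Gp, zero_mul]
  exact this

lemma Bk_hom (n t k : ℕ) : (Bk n t k).IsHomogeneous t := by
  have := PY_hom n (Finset.Ico (k * t) ((k + 1) * t))
  rw [Nat.card_Ico, add_mul, one_mul, Nat.add_sub_cancel_left] at this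
  rw [Bk, add_mul, one_mul]
  exact this

lemma Ak_hom (n : ℕ) (σ : ℕ → ℕ) (k e : ℕ) (h : σ (k + 1) = σ k + e) :
    (Ak n σ k).IsHomogeneous e := by
  have := PX_hom n (Finset.Ico (σ k) (σ (k + 1)))
  rw [Nat.card_Ico, h, Nat.add_sub_cancel_left] at this
  rw [Ak, h]
  exact this

lemma koszul {n : ℕ} (hn : n ≠ 0) {lam : ℂ} (hl : lam ≠ 0) (a b : S)
    (h : a * PX n (Finset.range n) + b * (C lam * PY n (Finset.range n)) = 0) :
    ∃ c, a = c * (C lam * PY n (Finset.range n)) ∧ b = -(c * PX n (Finset.range n)) := by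
  have hCl : (C lam : S) ≠ 0 := by rwa [Ne, C_eq_zero]
  obtain ⟨c, hc⟩ : PX n (Finset.range n) ∣ b := by
    refine PX_dvd hn _ (fun j hj => Finset.mem_range.1 hj) _ fun i hi => ?_
    have h1 := congrArg (sx n i) h
    rw [map_add, map_mul, map_mul, sx_PX hi, mul_zero, zero_add, map_mul, sx_C, sx_PY, map_zero,
      mul_eq_zero] at h1
    exact h1.resolve_right (mul_ne_zero hCl (PY_ne _ _))
  refine ⟨-c, ?_, ?_⟩
  · apply mul_right_cancel₀ (PX_ne n (Finset.range n))
    rw [hc] at h
    linear_combination h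
  · rw [hc]; ring

lemma exists_lam {n : ℕ} (hn : n ≠ 0) : ∃ lam : ℂ, lam ≠ 0 ∧
    ∀ i j i' j' : ℕ, i < n → j < n → i' < n → j' < n → vv n lam i j = vv n lam i' j' →
      i = i' ∧ j = j' := by
  obtain ⟨lam, hlam⟩ := Infinite.exists_notMem_finset
    (insert 0 (((Finset.range n ×ˢ Finset.range n) ×ˢ (Finset.range n ×ˢ Finset.range n)).image
      (fun p : (ℕ × ℕ) × (ℕ × ℕ) =>
        (zt n p.1.1 - zt n p.2.1) / (zt n p.2.2 - zt n p.1.2))) : Finset ℂ)
  rw [Finset.mem_insert, not_or] at hlam
  refine ⟨lam, hlam.1, ?_⟩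
  intro i j i' j' hi hj hi' hj' h
  have h1 : zt n i + lam * zt n j = zt n i' + lam * zt n j' := by
    unfold vv at h
    have hn' : -(n : ℂ) ≠ 0 := neg_ne_zero.2 (Nat.cast_ne_zero.2 hn)
    exact mul_left_cancel₀ hn' h
  by_cases hjj : j = j'
  · subst hjj
    have h2 : zt n i = zt n i' := by linear_combination h1
    exact ⟨zt_inj hn hi hi' h2, rfl⟩
  · exfalso
    apply hlam.2
    rw [Finset.mem_image]
    refine ⟨((i, j), (i', j')), ?_, ?_⟩
    · simp [hi, hj, hi', hj']
    · have hne : zt n j' - zt n j ≠ 0 := by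
        rw [sub_ne_zero]; intro e; exact hjj (zt_inj hn hj hj' e.symm)
      simp only
      rw [div_eq_iff hne]
      linear_combination h1

lemma cc_zero {r : ℕ} {p : S} (hp : p.IsHomogeneous r) (hr : 0 < r) : constantCoeff p = 0 := by
  rw [constantCoeff_eq]
  apply hp.coeff_eq_zero
  simp; omega

/-- the data of a minimal graded free resolution (restated in the results file) -/
def HasMilnorResolution (f : MvPolynomial (Fin 3) ℂ) (d s : ℕ)
    (e : Fin (s + 2) → ℕ) (c : Fin s → ℕ) : Prop :=
  ∃ (A : Matrix (Fin 3) (Fin (s + 2)) (MvPolynomial (Fin 3) ℂ))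
    (B : Matrix (Fin (s + 2)) (Fin s) (MvPolynomial (Fin 3) ℂ)),
    (∀ i j, (A i j).IsHomogeneous (e j)) ∧
    (∀ j k, B j k = 0 ∨ ∃ r : ℕ, d - 1 + e j + r = c k ∧ (B j k).IsHomogeneous r) ∧
    (∀ i, constantCoeff (pderiv i f) = 0) ∧
    (∀ i j, constantCoeff (A i j) = 0) ∧
    (∀ j k, constantCoeff (B j k) = 0) ∧
    (∀ v : Fin 3 → MvPolynomial (Fin 3) ℂ,
      (∑ i, v i * pderiv i f = 0) ↔ ∃ w : Fin (s + 2) → MvPolynomial (Fin 3) ℂ, v = A.mulVec w) ∧
    (∀ w : Fin (s + 2) → MvPolynomial (Fin 3) ℂ,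
      A.mulVec w = 0 ↔ ∃ u : Fin s → MvPolynomial (Fin 3) ℂ, w = B.mulVec u) ∧
    (∀ u : Fin s → MvPolynomial (Fin 3) ℂ, B.mulVec u = 0 → u = 0)

def HasClass (f : MvPolynomial (Fin 3) ℂ) (d t s : ℕ) (ε : Fin s → ℕ) : Prop :=
  3 ≤ d ∧ f.IsHomogeneous d ∧ Squarefree f ∧
  ∃ (e : Fin (s + 2) → ℕ) (c : Fin s → ℕ), Monotone e ∧ Monotone c ∧
    HasMilnorResolution f d s e c ∧
    e 0 + e 1 + 1 = d + t ∧
    ∀ j : Fin s, c j + 1 = d + e j.succ.succ + ε j

theorem main (t : ℕ) (ht : 1 ≤ t) (s : ℕ) (ε : Fin s → ℕ) (hpos : ∀ j, 0 < ε j)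
    (hsum : ∑ j, ε j = t) : ∃ (d : ℕ) (f : MvPolynomial (Fin 3) ℂ), HasClass f d t s ε := by
  have hs : 0 < s := by
    rcases Nat.eq_zero_or_pos s with h | h
    · subst h; simp at hsum; omega
    · exact h
  -- running sums
  let ε' : ℕ → ℕ := fun i => if h : i < s then ε ⟨i, h⟩ else 0
  let σ : ℕ → ℕ := fun k => ∑ i ∈ Finset.range k, ε' i
  have hσ0 : σ 0 = 0 := rfl
  have hσsucc : ∀ k, σ (k + 1) = σ k + ε' k := fun k => Finset.sum_range_succ _ _
  have hm : Monotone σ := monotone_nat_of_le_succ (fun k => by rw [hσsucc]; omega)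
  have hσs : σ s = t := by
    rw [← hsum]
    change ∑ i ∈ Finset.range s, ε' i = _
    rw [← Fin.sum_univ_eq_sum_range]
    refine Finset.sum_congr rfl fun j _ => ?_
    change (if h : (j : ℕ) < s then ε ⟨j, h⟩ else 0) = _
    rw [dif_pos j.2]
  have hσle : ∀ k, k ≤ s → σ k ≤ t := fun k hk => hσs ▸ hm hk
  have hεle : ∀ k, ε' k ≤ t := by
    intro k
    by_cases hk : k < s
    · have h1 := hσsucc k
      have h2 := hσle (k + 1) hk
      omega
    · change (if h : k < s then ε ⟨k, h⟩ else 0) ≤ t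
      rw [dif_neg hk]; omega
  have hε' : ∀ k : Fin s, ε' k = ε k := fun k => by
    change (if h : (k : ℕ) < s then ε ⟨k, h⟩ else 0) = _
    rw [dif_pos k.2]
  -- parameters
  set n : ℕ := s * t + 1 with hndef
  have hn : n ≠ 0 := Nat.succ_ne_zero _
  have hst : t ≤ s * t := Nat.le_mul_of_pos_left _ hs
  obtain ⟨lam, hl, hinj⟩ := exists_lam hn
  let Z : ℕ × ℕ → Prop := fun p => p.2 < s * t ∧ σ (p.2 / t) ≤ p.1 ∧ p.1 < t
  classical
  let V : Finset ℂ := ((Finset.range n ×ˢ Finset.range n).filter (fun p => ¬ Z p)).image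
    (fun p => vv n lam p.1 p.2)
  have hVmem : ∀ i j, i < n → j < n → (vv n lam i j ∈ V ↔ ¬ Z (i, j)) := by
    intro i j hi hj
    constructor
    · intro h
      obtain ⟨⟨i', j'⟩, h1, h2⟩ := Finset.mem_image.1 h
      rw [Finset.mem_filter, Finset.mem_product, Finset.mem_range, Finset.mem_range] at h1
      obtain ⟨h3, h4⟩ := hinj i' j' i j h1.1.1 h1.1.2 hi hj h2
      rw [← h3, ← h4]
      exact h1.2
    · intro h
      refine Finset.mem_image.2 ⟨(i, j), ?_, rfl⟩
      rw [Finset.mem_filter, Finset.mem_product, Finset.mem_range, Finset.mem_range]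
      exact ⟨⟨hi, hj⟩, h⟩
  have hZn : ∀ j, ¬ Z (n - 1, j) := by
    intro j h
    have := h.2.2
    simp only [hndef, Nat.add_sub_cancel] at this
    omega
  have hn2 : 2 ≤ n := by rw [hndef]; have : 1 ≤ s * t := le_trans ht hst; omega
  have hVcard : 1 < V.card := by
    rw [Finset.one_lt_card]
    refine ⟨_, (hVmem (n - 1) 0 (by omega) (by omega)).2 (hZn 0), _,
      (hVmem (n - 1) 1 (by omega) (by omega)).2 (hZn 1), ?_⟩
    intro h
    have := (hinj _ _ _ _ (by omega) (by omega) (by omega) (by omega) h).2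
    omega
  have hV0 : V.card ≠ 0 := by omega
  -- abbreviations
  set f : S := ff n lam V with hf
  set h0 : S := hh n lam V with hh0
  set P : S := PX n (Finset.range n) with hP
  set Q : S := C lam * PY n (Finset.range n) with hQ
  set N : ℕ := V.card with hN
  set H : ℕ := (N - 1) * (n + 1) with hH
  have hHn : n + 1 ≤ H := by
    rw [hH]; exact Nat.le_mul_of_pos_left _ (by omega)
  have hd : N * (n + 1) = H + (n + 1) := by
    rw [hH]
    obtain ⟨M, hM⟩ : ∃ M, N = M + 1 := ⟨N - 1, by omega⟩
    rw [hM, Nat.add_sub_cancel]; ring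
  have hfhom : f.IsHomogeneous (N * (n + 1)) := ff_hom n lam V
  have hhom0 : h0.IsHomogeneous H := hh_hom n lam V
  have hPhom : P.IsHomogeneous n := by
    have := PX_hom n (Finset.range n); rwa [Finset.card_range] at this
  have hPYhom : (PY n (Finset.range n)).IsHomogeneous n := by
    have := PY_hom n (Finset.range n); rwa [Finset.card_range] at this
  have hQhom : Q.IsHomogeneous n := hC _ _ hPYhom
  have hCl : (C lam : S) ≠ 0 := by rwa [Ne, C_eq_zero]
  have hn1 : ((n : ℂ) + 1) ≠ 0 := Nat.cast_add_one_ne_zero n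
  have hCn : (C ((n : ℂ) + 1) : S) ≠ 0 := by rwa [Ne, C_eq_zero]
  have hP0 : P ≠ 0 := PX_ne _ _
  have hQ0 : Q ≠ 0 := mul_ne_zero hCl (PY_ne _ _)
  have hh00 : h0 ≠ 0 := hh_ne hn lam hV0
  have hf0 : pderiv 0 f = h0 * (C ((n : ℂ) + 1) * P) := pderiv0_ff hn lam V
  have hf1 : pderiv 1 f = h0 * (C ((n : ℂ) + 1) * Q) := by
    rw [hf, pderiv1_ff hn lam V, hQ]; ring
  have hf2 : (pderiv 2 f).IsHomogeneous (n + H) := by
    have := hfhom.pderiv (i := 2)
    rw [hd] at this
    rwa [show H + (n + 1) - 1 = n + H by omega] at this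
  let G : ℕ → S := fun k => Gp n t σ 0 k
  -- lifts
  have hlift : ∀ k, k ≤ s → ∃ al be : S, al.IsHomogeneous (H + gd t σ k) ∧
      be.IsHomogeneous (H + gd t σ k) ∧
      al * pderiv 0 f + be * pderiv 1 f + h0 * G k * pderiv 2 f = 0 := by
    intro k hk
    have hGf : (G k * pderiv 2 f).IsHomogeneous (n + (H + gd t σ k)) := by
      have := (Gp_hom n t σ k).mul hf2
      rwa [show gd t σ k + (n + H) = n + (H + gd t σ k) by omega] at this
    obtain ⟨m, r, hmr⟩ := grid hn (Finset.range n) (Finset.range n)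
      (fun j hj => Finset.mem_range.1 hj) (fun j hj => Finset.mem_range.1 hj)
      (G k * pderiv 2 f) (by
        intro i hi j hj
        rw [Finset.mem_range] at hi hj
        rw [map_mul, map_mul]
        by_cases hZ : Z (i, j)
        · have : sx n i (sy n j (G k)) = 0 := by
            change sx n i (sy n j (Gp n t σ 0 k)) = 0
            rw [Gp, map_mul, map_mul, sy_PX]
            by_cases hjk : j < k * t
            · rw [sy_PY (Finset.mem_Ico.2 ⟨by omega, hjk⟩), map_zero, zero_mul]
            · rw [sx_PX (I := Finset.Ico (σ k) t), mul_zero]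
              rw [Finset.mem_Ico]
              refine ⟨?_, hZ.2.2⟩
              refine le_trans (hm ?_) hZ.2.1
              exact (Nat.le_div_iff_mul_le (by omega)).2 (by omega)
          rw [this, zero_mul]
        · rw [sxsy_fz_zero hn lam V hi hj ((hVmem i j hi hj).2 hZ), mul_zero])
    obtain ⟨m', r', hm', hr', hmr'⟩ := lift_hom hGf hPhom hPYhom hmr
    refine ⟨C (-((n : ℂ) + 1)⁻¹) * m', C (-(lam * ((n : ℂ) + 1))⁻¹) * r', hC _ _ hm', hC _ _ hr', ?_⟩
    have e1 : (C (-((n : ℂ) + 1)⁻¹) : S) * C ((n : ℂ) + 1) = -1 := by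
      rw [← C_mul, neg_mul, inv_mul_cancel₀ hn1, C_neg, C_1]
    have e2 : (C (-(lam * ((n : ℂ) + 1))⁻¹) : S) * (C ((n : ℂ) + 1) * C lam) = -1 := by
      rw [← C_mul, ← C_mul, neg_mul, mul_comm ((n : ℂ) + 1) lam,
        inv_mul_cancel₀ (mul_ne_zero hl hn1), C_neg, C_1]
    rw [hf0, hf1, hQ]
    linear_combination h0 * hmr' + h0 * m' * P * e1 + h0 * r' * PY n (Finset.range n) * e2
  choose! al be hal hbe hrel using hlift
  -- relations
  have hH5 : ∀ a b : S, a * pderiv 0 f + b * pderiv 1 f = 0 → ∃ c, a = c * Q ∧ b = -(c * P) := by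
    intro a b hab
    apply koszul hn hl
    rw [hf0, hf1] at hab
    have : (h0 * C ((n : ℂ) + 1)) * (a * P + b * Q) = 0 := by linear_combination hab
    exact (mul_eq_zero.1 this).resolve_left (mul_ne_zero hh00 hCn)
  have hBG : ∀ k, k < s → Bk n t k * G k = Ak n σ k * G (k + 1) := by
    intro k hk
    change Bk n t k * Gp n t σ 0 k = Ak n σ k * Gp n t σ 0 (k + 1)
    rw [Gp, Gp, Bk, ← Ak_mul n t σ hm (hσle (k + 1) hk)]
    have : PY n (Finset.Ico (0 * t) (k * t)) * PY n (Finset.Ico (k * t) ((k + 1) * t))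
        = PY n (Finset.Ico (0 * t) ((k + 1) * t)) := by
      rw [PY, PY, PY, Finset.prod_Ico_consecutive _ (by omega)
        (Nat.mul_le_mul_right _ (Nat.le_succ _))]
    rw [← this]; ring
  have hgds : ∀ k, k < s → gd t σ (k + 1) + ε' k = gd t σ k + t := by
    intro k hk
    have h1 := hσsucc k
    have h2 := hσle (k + 1) hk
    rw [gd, gd, add_mul, one_mul]
    omega
  have hkap : ∀ k, k < s → ∃ c : S, c.IsHomogeneous (H + gd t σ k + t - n) ∧
      Bk n t k * al k - Ak n σ k * al (k + 1) = c * Q ∧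
      Bk n t k * be k - Ak n σ k * be (k + 1) = -(c * P) := by
    intro k hk
    have h1 := hrel k hk.le
    have h2 := hrel (k + 1) hk
    obtain ⟨c, hc1, hc2⟩ := hH5 (Bk n t k * al k - Ak n σ k * al (k + 1))
      (Bk n t k * be k - Ak n σ k * be (k + 1)) (by
        linear_combination Bk n t k * h1 - Ak n σ k * h2 - h0 * pderiv 2 f * hBG k hk)
    refine ⟨c, ?_, hc1, hc2⟩
    have h3 : (Bk n t k * be k - Ak n σ k * be (k + 1)).IsHomogeneous (H + gd t σ k + t) := by
      have ha := (Bk_hom n t k).mul (hbe k hk.le)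
      have hb := (Ak_hom n σ k (ε' k) (hσsucc k)).mul (hbe (k + 1) hk)
      have hg := hgds k hk
      rw [show t + (H + gd t σ k) = H + gd t σ k + t by omega] at ha
      rw [show ε' k + (H + gd t σ (k + 1)) = H + gd t σ k + t by omega] at hb
      exact ha.sub hb
    have h4 : (P * c).IsHomogeneous (n + (H + gd t σ k + t - n)) := by
      rw [show n + (H + gd t σ k + t - n) = H + gd t σ k + t by omega]
      have : P * c = -(Bk n t k * be k - Ak n σ k * be (k + 1)) := by rw [hc2]; ring
      rw [this]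
      exact h3.neg
    exact factor_hom hPhom hP0 h4
  choose! ka hka hka1 hka2 using hkap
  -- exactness
  obtain ⟨E1, E2, E3⟩ := exact_of s (fun i => pderiv i f) P Q h0 al be G ka (Bk n t) (Ak n σ)
    hQ0 hh00 (fun k => PY_ne _ _)
    (by
      change Q * pderiv 0 f - P * pderiv 1 f = 0
      rw [hf0, hf1]; ring)
    (fun k hk => hrel k hk)
    (fun k hk => ⟨hka1 k hk, hka2 k hk, hBG k hk⟩)
    hH5
    (by
      intro v0 v1 v2 hv
      change v0 * pderiv 0 f + v1 * pderiv 1 f + v2 * pderiv 2 f = 0 at hv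
      obtain ⟨w, hw⟩ : h0 ∣ v2 := by
        apply hh_dvd hn lam hV0
        change h0 ∣ v2 * pderiv 2 f
        refine ⟨-(v0 * (C ((n : ℂ) + 1) * P) + v1 * (C ((n : ℂ) + 1) * Q)), ?_⟩
        rw [hf0, hf1] at hv
        linear_combination hv
      have hw2 : v0 * (C ((n : ℂ) + 1) * P) + v1 * (C ((n : ℂ) + 1) * Q) + w * pderiv 2 f = 0 := by
        apply mul_left_cancel₀ hh00
        rw [hf0, hf1, hw] at hv
        linear_combination hv
      obtain ⟨q, hq⟩ := stair_mem (n := n) (t := t) (s := s) σ hn hm hσs (by omega) (by omega)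
        (by omega) s 0 (by omega) w (by
          intro j hj i hi
          rw [Finset.mem_Ico] at hj hi
          have hin : i < n := by omega
          have hjn : j < n := by omega
          have h1 := congrArg (fun w => sx n i (sy n j w)) hw2
          simp only [map_add, map_mul, map_zero] at h1
          rw [hP, sy_PX, sx_PX (Finset.mem_range.2 hin), hQ, map_mul,
            sy_PY (Finset.mem_range.2 hjn)] at h1
          simp only [mul_zero, map_zero, zero_add, mul_eq_zero] at h1
          refine h1.resolve_right (sxsy_fz_ne hn lam V hV0 hin hjn ?_)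
          rw [hVmem i j hin hjn, not_not]
          exact ⟨hj.2, hi.1, hi.2⟩)
      refine ⟨q, ?_⟩
      rw [hw, hq, Finset.range_eq_Ico])
    (by
      intro q hq
      rw [Finset.range_eq_Ico] at hq
      obtain ⟨p, h1, h2, h3⟩ := stair_rel (n := n) (t := t) (s := s) σ hn hm hσs (by omega)
        s 0 (by omega) q hq
      exact ⟨p, h1, h2, fun k hk => h3 k (Nat.zero_le _) hk⟩)
  -- degrees
  let e : Fin (s + 2) → ℕ := fun j => Fin.cases n (fun k : Fin (s + 1) => H + gd t σ k) j
  let c : Fin s → ℕ := fun k => (N * (n + 1) - 1) + (H + gd t σ k + t)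
  have he0 : e 0 = n := rfl
  have hes : ∀ k : Fin (s + 1), e k.succ = H + gd t σ k := fun _ => rfl
  have hck : ∀ k : Fin s, c k = (N * (n + 1) - 1) + (H + gd t σ k + t) := fun _ => rfl
  have hgmono : ∀ k, k < s → gd t σ k ≤ gd t σ (k + 1) := by
    intro k hk
    have := hgds k hk
    have := hεle k
    omega
  refine ⟨N * (n + 1), f, ?_, hfhom, ff_squarefree hn hl V, e, c, ?_, ?_, ?_, ?_, ?_⟩
  · rw [hd]; omega
  · rw [Fin.monotone_iff_le_succ]
    intro i
    refine Fin.cases ?_ (fun k => ?_) i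
    · rw [Fin.castSucc_zero, he0, hes]; omega
    · rw [hes]
      have : (Fin.castSucc (Fin.succ k) : Fin (s + 2)) = Fin.succ (Fin.castSucc k) := rfl
      rw [this, hes]
      have := hgmono k k.2
      simp only [Fin.val_castSucc, Fin.val_succ]
      omega
  · intro a b hab
    rw [hck, hck]
    have hmon : ∀ m, ∀ k, k + m < s → gd t σ k ≤ gd t σ (k + m) := by
      intro m
      induction m with
      | zero => intro k _; exact le_rfl
      | succ m ih =>
        intro k hk
        exact (ih k (by omega)).trans (hgmono (k + m) (by omega))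
    have hab' : (a : ℕ) ≤ b := hab
    have := hmon ((b : ℕ) - a) a (by have := b.2; omega)
    rw [show (a : ℕ) + ((b : ℕ) - a) = b by omega] at this
    omega
  · refine ⟨matA s P Q h0 al be G, matB s ka (Bk n t) (Ak n σ), ?_, ?_, ?_, ?_, ?_, E1, E2, E3⟩
    · intro i j
      refine Fin.cases ?_ (fun k => ?_) j
      · rw [he0]
        change ((![Q, -P, 0] : Fin 3 → S) i).IsHomogeneous n
        fin_cases i
        · exact hQhom
        · exact hPhom.neg
        · exact isHomogeneous_zero _ _ _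
      · rw [hes]
        change ((![al k, be k, h0 * G k] : Fin 3 → S) i).IsHomogeneous (H + gd t σ k)
        have hk := k.2
        fin_cases i
        · exact hal k (by omega)
        · exact hbe k (by omega)
        · exact hhom0.mul (Gp_hom n t σ k)
    · intro j k
      refine Fin.cases ?_ (fun k' => ?_) j
      · right
        refine ⟨H + gd t σ k + t - n, ?_, ?_⟩
        · rw [he0, hck]; omega
        · exact (hka k k.2).neg
      · change ((if k' = k.castSucc then Bk n t k else 0)
          - (if k' = k.succ then Ak n σ k else 0)) = 0 ∨ ∃ r : ℕ, N * (n + 1) - 1 + e k'.succ + r = c k ∧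
            ((if k' = k.castSucc then Bk n t k else 0)
          - (if k' = k.succ then Ak n σ k else 0)).IsHomogeneous r
        by_cases h1 : k' = k.castSucc
        · right
          have h2 : k' ≠ k.succ := by
            rw [h1]; intro e2
            have := congrArg Fin.val e2
            simp only [Fin.val_castSucc, Fin.val_succ] at this
            omega
          rw [if_pos h1, if_neg h2, sub_zero]
          refine ⟨t, ?_, Bk_hom n t k⟩
          rw [hes, hck, h1]
          simp only [Fin.val_castSucc]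
          omega
        · by_cases h2 : k' = k.succ
          · right
            rw [if_neg h1, if_pos h2, zero_sub]
            refine ⟨ε' k, ?_, (Ak_hom n σ k (ε' k) (hσsucc k)).neg⟩
            rw [hes, hck, h2]
            have := hgds k k.2
            simp only [Fin.val_succ]
            omega
          · left
            rw [if_neg h1, if_neg h2, sub_zero]
    · intro i
      have := hfhom.pderiv (i := i)
      exact cc_zero this (by rw [hd]; omega)
    · intro i j
      refine Fin.cases ?_ (fun k => ?_) j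
      · change constantCoeff ((![Q, -P, 0] : Fin 3 → S) i) = 0
        fin_cases i
        · exact cc_zero hQhom (by omega)
        · exact cc_zero hPhom.neg (by omega)
        · exact map_zero _
      · change constantCoeff ((![al k, be k, h0 * G k] : Fin 3 → S) i) = 0
        have hk := k.2
        fin_cases i
        · exact cc_zero (hal k (by omega)) (by omega)
        · exact cc_zero (hbe k (by omega)) (by omega)
        · exact cc_zero (hhom0.mul (Gp_hom n t σ k)) (by omega)
    · intro j k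
      refine Fin.cases ?_ (fun k' => ?_) j
      · exact cc_zero (hka k k.2).neg (by omega)
      · change constantCoeff ((if k' = k.castSucc then Bk n t k else 0)
          - (if k' = k.succ then Ak n σ k else 0)) = 0
        rw [map_sub]
        have h1 : constantCoeff (if k' = k.castSucc then Bk n t k else 0) = 0 := by
          split_ifs
          · exact cc_zero (Bk_hom n t k) (by omega)
          · exact map_zero _
        have h2 : constantCoeff (if k' = k.succ then Ak n σ k else 0) = 0 := by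
          split_ifs
          · refine cc_zero (Ak_hom n σ k (ε' k) (hσsucc k)) ?_
            rw [hε']; exact hpos k
          · exact map_zero _
        rw [h1, h2, sub_zero]
  · have h1 : e 1 = H + gd t σ 0 := rfl
    rw [he0, h1, gd, hσ0, hd]
    omega
  · intro j
    have h1 : e j.succ.succ = H + gd t σ ((j : ℕ) + 1) := rfl
    rw [h1, hck, ← hε' j]
    have := hgds j j.2
    omega

end

end Pool.Agent.H445
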